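import Pool.Agent.H45.Apo.Code

set_option autoImplicit false

/-!
# The certificate for five-fold covers
-/

namespace Pool.Agent.H45.Apo

theorem c0 : KfL [13576, 13569] :=
  kfL_comp _ [] [] [] 10433 18056 18056 (by decide +kernel) (by decide +kernel) (by decide +kernel) (by decide +kernel)
    kfL_nil kfL_nil kfL_nil

theorem c1a : KfL [5155, 5148] :=
  kfL_trans [13576, 13569] _ 4378 17608 (by decide +kernel) (by decide +kernel) (by decide +kernel) c0

theorem c1b : KfL [12386] :=
  kfL_trans [13576, 13569] _ 4308 1249 (by decide +kernel) (by decide +kernel) (by decide +kernel) c0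

theorem c1c : KfL [794] :=
  kfL_trans [13576, 13569] _ 17986 6275 (by decide +kernel) (by decide +kernel) (by decide +kernel) c0

theorem c1 : KfL [13576, 794, 12386] :=
  kfL_comp _ [5155, 5148] [12386] [794] 10433 787 12372 (by decide +kernel) (by decide +kernel) (by decide +kernel) (by decide +kernel)
    c1a c1b c1c

theorem c2a : KfL [12834, 12386] :=
  kfL_trans [13576, 13569] _ 18056 16474 (by decide +kernel) (by decide +kernel) (by decide +kernel) c0

theorem c2b : KfL [1228] :=
  kfL_trans [13576, 13569] _ 18056 9761 (by decide +kernel) (by decide +kernel) (by decide +kernel) c0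

theorem c2c : KfL [1228] :=
  kfL_trans [13576, 13569] _ 18056 9761 (by decide +kernel) (by decide +kernel) (by decide +kernel) c0

theorem c2 : KfL [13576, 13569, 1228] :=
  kfL_comp _ [12834, 12386] [1228] [1228] 10433 4378 4371 (by decide +kernel) (by decide +kernel) (by decide +kernel) (by decide +kernel)
    c2a c2b c2c

theorem c3a : KfL [5148, 1116] :=
  kfL_trans [13576, 13569] _ 18056 5666 (by decide +kernel) (by decide +kernel) (by decide +kernel) c0

theorem c3b : KfL [16915] :=
  kfL_trans [13576, 13569] _ 17986 1291 (by decide +kernel) (by decide +kernel) (by decide +kernel) c0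

theorem c3c : KfL [16915, 787] :=
  kfL_trans [13576, 13569] _ 6352 5666 (by decide +kernel) (by decide +kernel) (by decide +kernel) c0

theorem c3 : KfL [13569, 16915, 787] :=
  kfL_comp _ [5148, 1116] [16915] [16915, 787] 10433 4378 12386 (by decide +kernel) (by decide +kernel) (by decide +kernel) (by decide +kernel)
    c3a c3b c3c

theorem c4a : KfL [794, 12834, 12386] :=
  kfL_trans [13576, 13569, 1228] _ 18056 16474 (by decide +kernel) (by decide +kernel) (by decide +kernel) c2

theorem c4b : KfL [5764, 5316] :=
  kfL_trans [13576, 13569, 1228] _ 8284 16467 (by decide +kernel) (by decide +kernel) (by decide +kernel) c2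

theorem c4c : KfL [5764] :=
  kfL_trans [13569, 16915, 787] _ 668 5652 (by decide +kernel) (by decide +kernel) (by decide +kernel) c3

theorem c4 : KfL [13576, 13569, 5764, 5316] :=
  kfL_comp _ [794, 12834, 12386] [5764, 5316] [5764] 10433 787 1123 (by decide +kernel) (by decide +kernel) (by decide +kernel) (by decide +kernel)
    c4a c4b c4c

theorem c5a : KfL [12834, 12386, 5148] :=
  kfL_trans [13569, 16915, 787] _ 5316 12960 (by decide +kernel) (by decide +kernel) (by decide +kernel) c3

theorem c5b : KfL [2131, 12820] :=
  kfL_trans [13576, 794, 12386] _ 1809 1123 (by decide +kernel) (by decide +kernel) (by decide +kernel) c1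

theorem c5c : KfL [12820] :=
  kfL_trans [13569, 16915, 787] _ 6163 4378 (by decide +kernel) (by decide +kernel) (by decide +kernel) c3

theorem c5 : KfL [2131, 787, 12820] :=
  kfL_comp _ [12834, 12386, 5148] [2131, 12820] [12820] 10433 4378 1123 (by decide +kernel) (by decide +kernel) (by decide +kernel) (by decide +kernel)
    c5a c5b c5c

theorem c6a : KfL [4378, 794] :=
  kfL_trans [13569, 16915, 787] _ 8928 13072 (by decide +kernel) (by decide +kernel) (by decide +kernel) c3

theorem c6b : KfL [12820] :=
  kfL_trans [13569, 16915, 787] _ 1802 5652 (by decide +kernel) (by decide +kernel) (by decide +kernel) c3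

theorem c6c : KfL [5155] :=
  kfL_trans [13569, 16915, 787] _ 14353 6170 (by decide +kernel) (by decide +kernel) (by decide +kernel) c3

theorem c6 : KfL [5155, 12820] :=
  kfL_comp _ [4378, 794] [12820] [5155] 10433 1123 12372 (by decide +kernel) (by decide +kernel) (by decide +kernel) (by decide +kernel)
    c6a c6b c6c

theorem c7a : KfL [4378, 12386, 12372] :=
  kfL_trans [13576, 13569, 1228] _ 2138 9985 (by decide +kernel) (by decide +kernel) (by decide +kernel) c2

theorem c7b : KfL [6170, 5148] :=
  kfL_trans [13576, 13569, 1228] _ 1123 8963 (by decide +kernel) (by decide +kernel) (by decide +kernel) c2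

theorem c7c : KfL [6170, 12820] :=
  kfL_trans [13576, 794, 12386] _ 16474 16922 (by decide +kernel) (by decide +kernel) (by decide +kernel) c1

theorem c7 : KfL [13569, 6170, 12820, 5148] :=
  kfL_comp _ [4378, 12386, 12372] [6170, 5148] [6170, 12820] 10433 787 1123 (by decide +kernel) (by decide +kernel) (by decide +kernel) (by decide +kernel)
    c7a c7b c7c

theorem c8a : KfL [4378, 4371, 5155, 12820] :=
  kfL_trans [13569, 6170, 12820, 5148] _ 6275 8984 (by decide +kernel) (by decide +kernel) (by decide +kernel) c7

theorem c8b : KfL [794, 8739] :=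
  kfL_trans [5155, 12820] _ 5379 8900 (by decide +kernel) (by decide +kernel) (by decide +kernel) c6

theorem c8c : KfL [12834, 8739] :=
  kfL_trans [13576, 13569, 5764, 5316] _ 1228 14346 (by decide +kernel) (by decide +kernel) (by decide +kernel) c4

theorem c8 : KfL [2138, 794, 12834, 8739, 1123] :=
  kfL_comp _ [4378, 4371, 5155, 12820] [794, 8739] [12834, 8739] 10433 12372 1116 (by decide +kernel) (by decide +kernel) (by decide +kernel) (by decide +kernel)
    c8a c8b c8c

theorem c9a : KfL [12386, 5155, 1123, 12372] :=
  kfL_trans [13576, 13569, 5764, 5316] _ 10433 12820 (by decide +kernel) (by decide +kernel) (by decide +kernel) c4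

theorem c9b : KfL [17048, 17433, 10265] :=
  kfL_trans [2131, 787, 12820] _ 5379 2250 (by decide +kernel) (by decide +kernel) (by decide +kernel) c5

theorem c9c : KfL [17433, 10265] :=
  kfL_trans [13576, 13569, 5764, 5316] _ 2131 8284 (by decide +kernel) (by decide +kernel) (by decide +kernel) c4

theorem c9 : KfL [13576, 17048, 8984, 13569, 17433, 10265] :=
  kfL_comp _ [12386, 5155, 1123, 12372] [17048, 17433, 10265] [17433, 10265] 10433 4371 787 (by decide +kernel) (by decide +kernel) (by decide +kernel) (by decide +kernel)
    c9a c9b c9c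

theorem c10a : KfL [4378, 4371, 12820, 12372, 5148, 1116] :=
  kfL_trans [13576, 17048, 8984, 13569, 17433, 10265] _ 12820 10433 (by decide +kernel) (by decide +kernel) (by decide +kernel) c9

theorem c10b : KfL [17090, 13058, 1802] :=
  kfL_trans [2138, 794, 12834, 8739, 1123] _ 6170 2201 (by decide +kernel) (by decide +kernel) (by decide +kernel) c8

theorem c10c : KfL [17090, 13058] :=
  kfL_trans [2138, 794, 12834, 8739, 1123] _ 9761 8732 (by decide +kernel) (by decide +kernel) (by decide +kernel) c8

theorem c10 : KfL [13576, 12960, 13569, 1697, 1249, 17090, 13058, 1802, 12834, 1634, 738, 8739, 1123] :=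
  kfL_comp _ [4378, 4371, 12820, 12372, 5148, 1116] [17090, 13058, 1802] [17090, 13058] 10433 5155 1123 (by decide +kernel) (by decide +kernel) (by decide +kernel) (by decide +kernel)
    c10a c10b c10c

theorem c11a : KfL [13058, 4378, 12834, 12386, 8291, 13380, 8732, 5148, 8284] :=
  kfL_trans [13576, 12960, 13569, 1697, 1249, 17090, 13058, 1802, 12834, 1634, 738, 8739, 1123] _ 14346 1123 (by decide +kernel) (by decide +kernel) (by decide +kernel) c10

theorem c11b : KfL [10440, 17104, 17090, 8396, 724, 8284, 668] :=
  kfL_trans [13576, 12960, 13569, 1697, 1249, 17090, 13058, 1802, 12834, 1634, 738, 8739, 1123] _ 10307 14416 (by decide +kernel) (by decide +kernel) (by decide +kernel) c10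

theorem c11c : KfL [10440, 17104, 8396, 724, 8284, 668] :=
  kfL_trans [13576, 12960, 13569, 1697, 1249, 17090, 13058, 1802, 12834, 1634, 738, 8739, 1123] _ 10307 14416 (by decide +kernel) (by decide +kernel) (by decide +kernel) c10

theorem c11 : KfL [10440, 17104, 17090, 5379, 16523, 2187, 16467, 2131, 787, 675, 8396, 724, 8284, 668] :=
  kfL_comp _ [13058, 4378, 12834, 12386, 8291, 13380, 8732, 5148, 8284] [10440, 17104, 17090, 8396, 724, 8284, 668] [10440, 17104, 8396, 724, 8284, 668] 2257 5155 5379 (by decide +kernel) (by decide +kernel) (by decide +kernel) (by decide +kernel)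
    c11a c11b c11c

theorem c12a : KfL [4378, 794, 12834, 12386, 787, 5155, 1123, 12820, 5148, 1116] :=
  kfL_trans [10440, 17104, 17090, 5379, 16523, 2187, 16467, 2131, 787, 675, 8396, 724, 8284, 668] _ 8928 10251 (by decide +kernel) (by decide +kernel) (by decide +kernel) c11

theorem c12b : KfL [14472, 10328, 9740] :=
  kfL_trans [10440, 17104, 17090, 5379, 16523, 2187, 16467, 2131, 787, 675, 8396, 724, 8284, 668] _ 2201 12449 (by decide +kernel) (by decide +kernel) (by decide +kernel) c11

theorem c12c : KfL [9992, 6296, 10251] :=
  kfL_trans [10440, 17104, 17090, 5379, 16523, 2187, 16467, 2131, 787, 675, 8396, 724, 8284, 668] _ 5400 9985 (by decide +kernel) (by decide +kernel) (by decide +kernel) c11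

theorem c12 : KfL [14472, 9992, 14416, 5904, 10328, 6296, 10251, 8459, 6163, 4371, 9740, 12428, 5652, 12372, 8284, 4252] :=
  kfL_comp _ [4378, 794, 12834, 12386, 787, 5155, 1123, 12820, 5148, 1116] [14472, 10328, 9740] [9992, 6296, 10251] 10433 4371 12372 (by decide +kernel) (by decide +kernel) (by decide +kernel) (by decide +kernel)
    c12a c12b c12c

/-- The window: all permutations avoiding two given ones are in the killed set. -/
theorem window : checkWin [14472, 9992, 14416, 5904, 10328, 6296, 10251, 8459, 6163, 4371, 9740, 12428, 5652, 12372, 8284, 4252] 17601 738 = true := by decide +kernel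

end Pool.Agent.H45.Apo
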