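import Pool.Agent.H45.Apo.Kill

set_option autoImplicit false

/-!
# Permutations of five points coded by natural numbers
-/

namespace Pool.Agent.H45.Apo

abbrev P5 := Equiv.Perm (Fin 5)

/-- The octal code of a permutation of five points. -/
def code (v : P5) : ℕ :=
  (v 0).1 + 8 * (v 1).1 + 64 * (v 2).1 + 512 * (v 3).1 + 4096 * (v 4).1

/-- The `i`-th octal digit. -/
def dg (a i : ℕ) : ℕ := a / 8 ^ i % 8

theorem dg_code (v : P5) (i : Fin 5) : dg (code v) i.1 = (v i).1 := by
  unfold dg code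
  have h0 := (v 0).isLt
  have h1 := (v 1).isLt
  have h2 := (v 2).isLt
  have h3 := (v 3).isLt
  have h4 := (v 4).isLt
  fin_cases i <;> simp <;> omega

/-- All codes of permutations. -/
def all5 : List ℕ :=
  (List.range 5).flatMap fun a => (List.range 5).flatMap fun b => (List.range 5).flatMap fun c =>
    (List.range 5).flatMap fun d => (List.range 5).filterMap fun e =>
      if a ≠ b ∧ a ≠ c ∧ a ≠ d ∧ a ≠ e ∧ b ≠ c ∧ b ≠ d ∧ b ≠ e ∧ c ≠ d ∧ c ≠ e ∧ d ≠ e then
        some (a + 8 * b + 64 * c + 512 * d + 4096 * e) else none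

theorem code_mem (v : P5) : code v ∈ all5 := by
  unfold all5 code
  simp only [List.mem_flatMap, List.mem_filterMap, List.mem_range]
  have inj : ∀ i j : Fin 5, i ≠ j → (v i).1 ≠ (v j).1 := by
    intro i j hij h
    exact hij (v.injective (Fin.ext h))
  refine ⟨(v 0).1, (v 0).isLt, (v 1).1, (v 1).isLt, (v 2).1, (v 2).isLt, (v 3).1, (v 3).isLt,
    (v 4).1, (v 4).isLt, ?_⟩
  rw [if_pos]
  exact ⟨inj 0 1 (by decide), inj 0 2 (by decide), inj 0 3 (by decide), inj 0 4 (by decide),
    inj 1 2 (by decide), inj 1 3 (by decide), inj 1 4 (by decide), inj 2 3 (by decide),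
    inj 2 4 (by decide), inj 3 4 (by decide)⟩

theorem code_inj {v w : P5} (h : code v = code w) : v = w := by
  ext i
  rw [← dg_code v i, ← dg_code w i, h]

/-- pointwise different, for codes -/
def avB (a b : ℕ) : Bool :=
  dg a 0 != dg b 0 && dg a 1 != dg b 1 && dg a 2 != dg b 2 && dg a 3 != dg b 3 &&
    dg a 4 != dg b 4

theorem avB_iff (v w : P5) : avB (code v) (code w) = true ↔ Av v w := by
  unfold avB
  have e : ∀ i : Fin 5, (dg (code v) i.1 != dg (code w) i.1) = true ↔ v i ≠ w i := by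
    intro i
    rw [dg_code, dg_code, bne_iff_ne]
    exact not_congr ⟨fun h => Fin.ext h, fun h => by rw [h]⟩
  have e0 := e 0
  have e1 := e 1
  have e2 := e 2
  have e3 := e 3
  have e4 := e 4
  simp only [Bool.and_eq_true]
  constructor
  · rintro ⟨⟨⟨⟨h0, h1⟩, h2⟩, h3⟩, h4⟩ i
    fin_cases i
    · exact e0.mp h0
    · exact e1.mp h1
    · exact e2.mp h2
    · exact e3.mp h3
    · exact e4.mp h4
  · intro h
    exact ⟨⟨⟨⟨e0.mpr (h 0), e1.mpr (h 1)⟩, e2.mpr (h 2)⟩, e3.mpr (h 3)⟩, e4.mpr (h 4)⟩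

/-- composition, for codes -/
def cmp (a b : ℕ) : ℕ :=
  dg a (dg b 0) + 8 * dg a (dg b 1) + 64 * dg a (dg b 2) + 512 * dg a (dg b 3) +
    4096 * dg a (dg b 4)

theorem code_mul (v w : P5) : code (v * w) = cmp (code v) (code w) := by
  unfold cmp
  have e : ∀ i : Fin 5, dg (code v) (dg (code w) i.1) = ((v * w) i).1 := by
    intro i
    rw [dg_code, dg_code, Equiv.Perm.mul_apply]
  have e0 := e 0
  have e1 := e 1
  have e2 := e 2
  have e3 := e 3
  have e4 := e 4
  simp only [Fin.isValue, Fin.val_zero, Fin.val_one, Fin.val_two] at e0 e1 e2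
  change dg (code v) (dg (code w) 3) = _ at e3
  change dg (code v) (dg (code w) 4) = _ at e4
  rw [e0, e1, e2, e3, e4]
  rfl

/-- a code is valid if it is the code of a permutation -/
def Valid (c : ℕ) : Prop := ∃ v : P5, code v = c

/-- test for validity -/
def validB (c : ℕ) : Bool := all5.contains c

theorem valid_of {c : ℕ} (h : validB c = true) : Valid c := by
  unfold validB at h
  rw [List.contains_iff_mem] at h
  unfold all5 at h
  simp only [List.mem_flatMap, List.mem_filterMap, List.mem_range] at h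
  obtain ⟨a, ha, b, hb, c', hc, d, hd, e, he, h⟩ := h
  split_ifs at h with hn
  have hf : Function.Injective (![⟨a, ha⟩, ⟨b, hb⟩, ⟨c', hc⟩, ⟨d, hd⟩, ⟨e, he⟩] : Fin 5 → Fin 5) := by
    obtain ⟨h1, h2, h3, h4, h5, h6, h7, h8, h9, h10⟩ := hn
    intro i j hij
    fin_cases i <;> fin_cases j <;> simp_all
  refine ⟨Equiv.ofBijective _ (Finite.injective_iff_bijective.mp hf), ?_⟩
  rw [← Option.some_inj, ← h]
  rfl

/-- killable lists of codes -/
def KfL (L : List ℕ) : Prop := Kf {v : P5 | code v ∈ L}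

theorem kfL_nil : KfL [] := by
  refine (kf_empty).mono ?_
  intro v hv
  simp at hv

theorem kfL_trans (L L' : List ℕ) (g s : ℕ) (hg : validB g = true) (hs : validB s = true)
    (hL : L'.all (fun y => L.contains (cmp (cmp g y) s)) = true) (h : KfL L) : KfL L' := by
  obtain ⟨g', rfl⟩ := valid_of hg
  obtain ⟨s', rfl⟩ := valid_of hs
  refine (Kf.trans h g'⁻¹ s'⁻¹).mono ?_
  intro v hv
  rw [List.all_eq_true] at hL
  have := hL _ hv
  rw [List.contains_iff_mem, ← code_mul, ← code_mul] at this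
  simpa using this

/-- the test of the composition step -/
def checkComp (L L1 L2 L3 : List ℕ) (τ ν μ : ℕ) : Bool :=
  L.all fun r => all5.all fun v =>
    !(avB v 18056) || !(avB v τ) || !(avB v r) || L1.contains v || (v == ν && L2.contains r) ||
      (v == μ && L3.contains r)

theorem code_one : code 1 = 18056 := by decide

theorem kfL_comp (L L1 L2 L3 : List ℕ) (τ ν μ : ℕ) (hτ : validB τ = true) (hν : validB ν = true)
    (hμ : validB μ = true) (hc : checkComp L L1 L2 L3 τ ν μ = true)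
    (h1 : KfL L1) (h2 : KfL L2) (h3 : KfL L3) : KfL L := by
  obtain ⟨τ', rfl⟩ := valid_of hτ
  obtain ⟨ν', rfl⟩ := valid_of hν
  obtain ⟨μ', rfl⟩ := valid_of hμ
  refine Kf.comp h1 h2 h3 τ' ν' μ' ?_
  intro r hr v ha hb hc'
  unfold checkComp at hc
  rw [List.all_eq_true] at hc
  have := hc _ hr
  rw [List.all_eq_true] at this
  have := this _ (code_mem v)
  rw [← code_one, (avB_iff _ _).mpr ha, (avB_iff _ _).mpr hb, (avB_iff _ _).mpr hc'] at this
  simp only [Bool.not_true, Bool.false_or, Bool.or_eq_true, Bool.and_eq_true,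
    List.contains_iff_mem, beq_iff_eq] at this
  rcases this with (h | ⟨h, h'⟩) | ⟨h, h'⟩
  · exact Or.inl h
  · exact Or.inr (Or.inl ⟨code_inj h, h'⟩)
  · exact Or.inr (Or.inr ⟨code_inj h, h'⟩)

/-- the test of the final window -/
def checkWin (L : List ℕ) (a b : ℕ) : Bool :=
  all5.all fun v => !(avB v a) || !(avB v b) || L.contains v

theorem win_of {L : List ℕ} {a b : ℕ} (h : checkWin L a b = true) (ha : validB a = true)
    (hb : validB b = true) :
    ∃ g1 g2 : P5, ∀ r, Av r g1 → Av r g2 → r ∈ {v : P5 | code v ∈ L} := by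
  obtain ⟨a', rfl⟩ := valid_of ha
  obtain ⟨b', rfl⟩ := valid_of hb
  refine ⟨a', b', fun r h1 h2 => ?_⟩
  unfold checkWin at h
  rw [List.all_eq_true] at h
  have := h _ (code_mem r)
  rw [(avB_iff _ _).mpr h1, (avB_iff _ _).mpr h2] at this
  simp only [Bool.not_true, Bool.false_or, List.contains_iff_mem] at this
  exact this

end Pool.Agent.H45.Apo
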