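import Pool.Agent.H45.Apo.Net
import Pool.Graph.R_seed8.H239R2.Cover.PlanarDefs

set_option autoImplicit false

/-!
# Straight-line drawings of the planar 3-trees `Net d`
-/

namespace Pool.Agent.H45.Apo

open Pool.Agent.H239R2.Planar (HasStraightLineDrawing)

/-- Barycentric coordinates in a child triangle from those in the triangle. -/
def stp (k : Fin 3) (a : Fin 3 → ℝ) : Fin 3 → ℝ :=
  match k with
  | 0 => ![a 0 - a 2, a 1 - a 2, 3 * a 2]
  | 1 => ![a 0 - a 1, a 2 - a 1, 3 * a 1]
  | 2 => ![a 1 - a 0, a 2 - a 0, 3 * a 0]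

/-- Barycentric coordinates with respect to the triangle `l`. -/
def bc : List (Fin 3) → (ℝ × ℝ) → Fin 3 → ℝ
  | [], p => ![1 - p.1 - p.2, p.1, p.2]
  | k :: l, p => stp k (bc l p)

/-- The point dividing a segment. -/
def mid (p q : ℝ × ℝ) (t : ℝ) : ℝ × ℝ := ((1 - t) * p.1 + t * q.1, (1 - t) * p.2 + t * q.2)

theorem mid_swap (p q : ℝ × ℝ) (t : ℝ) : mid p q t = mid q p (1 - t) := by
  unfold mid
  ext <;> simp <;> ring

theorem bc_mid (l : List (Fin 3)) (p q : ℝ × ℝ) (t : ℝ) :
    ∀ i, bc l (mid p q t) i = (1 - t) * bc l p i + t * bc l q i := by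
  induction l with
  | nil =>
    intro i
    fin_cases i <;> simp [bc, mid]
    ring
  | cons k l ih =>
    intro i
    have h0 := ih 0
    have h1 := ih 1
    have h2 := ih 2
    fin_cases k <;> fin_cases i <;> simp [bc, stp, h0, h1, h2] <;> ring

/-- The centroid. -/
noncomputable def cen (c : Fin 3 → ℝ × ℝ) : ℝ × ℝ :=
  (((c 0).1 + (c 1).1 + (c 2).1) / 3, ((c 0).2 + (c 1).2 + (c 2).2) / 3)

theorem bc_cen (l : List (Fin 3)) (c : Fin 3 → ℝ × ℝ) :
    ∀ i, bc l (cen c) i = (bc l (c 0) i + bc l (c 1) i + bc l (c 2) i) / 3 := by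
  induction l with
  | nil =>
    intro i
    fin_cases i <;> simp [bc, cen]
    ring
  | cons k l ih =>
    intro i
    have h0 := ih 0
    have h1 := ih 1
    have h2 := ih 2
    fin_cases k <;> fin_cases i <;> simp [bc, stp, h0, h1, h2] <;> ring

/-- The positions of the corners of the triangle `l`. -/
noncomputable def cpos : List (Fin 3) → Fin 3 → ℝ × ℝ
  | [], i => ![(0, 0), (1, 0), (0, 1)] i
  | k :: l, i => if i = 2 then cen (cpos l) else cpos l (sel k i)

/-- The positions of the vertices. -/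
noncomputable def pos : W → ℝ × ℝ
  | Sum.inl i => cpos [] i
  | Sum.inr l => cen (cpos l)

theorem pos_cor (l : List (Fin 3)) : ∀ i, pos (cor l i) = cpos l i := by
  induction l with
  | nil => intro i; rfl
  | cons k l ih =>
    intro i
    by_cases hi : i = 2
    · subst hi; rw [cor_two]; simp [cpos, pos]
    · rw [cor_sel _ _ _ hi, ih]; simp [cpos, hi]

theorem bc_cpos (l : List (Fin 3)) : ∀ j i, bc l (cpos l j) i = if i = j then 1 else 0 := by
  induction l with
  | nil =>
    intro j i
    fin_cases j <;> fin_cases i <;> simp [bc, cpos]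
  | cons k l ih =>
    intro j i
    by_cases hj : j = 2
    · subst hj
      have e : ∀ i, bc l (cpos (k :: l) 2) i = 1 / 3 := by
        intro i
        have : cpos (k :: l) 2 = cen (cpos l) := by simp [cpos]
        rw [this, bc_cen, ih, ih, ih]
        fin_cases i <;> simp
      have e0 := e 0
      have e1 := e 1
      have e2 := e 2
      fin_cases k <;> fin_cases i <;> simp_all [bc, stp]
    · have e : ∀ i, bc l (cpos (k :: l) j) i = if i = sel k j then 1 else 0 := by
        intro i
        have : cpos (k :: l) j = cpos l (sel k j) := by simp [cpos, hj]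
        rw [this, ih]
      have e0 := e 0
      have e1 := e 1
      have e2 := e 2
      fin_cases k <;> fin_cases j <;> fin_cases i <;> simp_all [bc, stp, sel]

theorem bc_vertex (l : List (Fin 3)) (i : Fin 3) : bc l (pos (Sum.inr l)) i = 1 / 3 := by
  change bc l (cen (cpos l)) i = _
  rw [bc_cen, bc_cpos, bc_cpos, bc_cpos]
  fin_cases i <;> simp

/-- The point lies in the open triangle `l`. -/
def In (l : List (Fin 3)) (p : ℝ × ℝ) : Prop := ∀ i, 0 < bc l p i

theorem in_cons {k : Fin 3} {l : List (Fin 3)} {p : ℝ × ℝ} (h : In (k :: l) p) : In l p := by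
  have h0 := h 0
  have h1 := h 1
  have h2 := h 2
  intro i
  fin_cases k <;> simp [bc, stp] at h0 h1 h2 <;> fin_cases i <;> simp <;> linarith

theorem in_uniq {k k' : Fin 3} {l : List (Fin 3)} {p : ℝ × ℝ} (h : In (k :: l) p)
    (h' : In (k' :: l) p) : k = k' := by
  have h0 := h 0
  have h1 := h 1
  have h2 := h 2
  have h0' := h' 0
  have h1' := h' 1
  have h2' := h' 2
  fin_cases k <;> fin_cases k' <;> simp [bc, stp] at h0 h1 h2 h0' h1' h2' ⊢ <;> linarith

theorem in_same {p : ℝ × ℝ} (l : List (Fin 3)) : ∀ l' : List (Fin 3), l.length = l'.length →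
    In l p → In l' p → l = l' := by
  induction l with
  | nil =>
    intro l' hl _ _
    exact (List.length_eq_zero_iff.mp hl.symm).symm
  | cons k l ih =>
    intro l' hl h h'
    cases l' with
    | nil => simp at hl
    | cons k' l' =>
      have e := ih l' (by simpa using hl) (in_cons h) (in_cons h')
      subst e
      rw [in_uniq h h']

theorem in_drop {p : ℝ × ℝ} (l : List (Fin 3)) (h : In l p) : ∀ n, In (l.drop n) p := by
  intro n
  induction n generalizing l with
  | zero => simpa using h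
  | succ n ih =>
    cases l with
    | nil => simpa using h
    | cons k l => simpa using ih l (in_cons h)

theorem in_nil {p : ℝ × ℝ} {l : List (Fin 3)} (h : In l p) : In [] p := by
  have := in_drop l h l.length
  simpa using this

/-- The point lies in the open triangle `l` but not in a child triangle. -/
def Home (l : List (Fin 3)) (p : ℝ × ℝ) : Prop := In l p ∧ ∀ k, ¬ In (k :: l) p

theorem home_lt {l l' : List (Fin 3)} {p : ℝ × ℝ} (h : Home l p) (h' : Home l' p)
    (hl : l.length < l'.length) : False := by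
  have hd := in_drop l' h'.1 (l'.length - (l.length + 1))
  have hlen : (l'.drop (l'.length - (l.length + 1))).length = l.length + 1 := by
    rw [List.length_drop]; omega
  cases hm : l'.drop (l'.length - (l.length + 1)) with
  | nil => rw [hm] at hlen; simp at hlen
  | cons k m =>
    rw [hm] at hd hlen
    have e := in_same m l (by simpa using hlen) (in_cons hd) h.1
    subst e
    exact h.2 k hd

theorem home_uniq {l l' : List (Fin 3)} {p : ℝ × ℝ} (h : Home l p) (h' : Home l' p) : l = l' := by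
  rcases lt_trichotomy l.length l'.length with hl | hl | hl
  · exact (home_lt h h' hl).elim
  · exact in_same l l' hl h.1 h'.1
  · exact (home_lt h' h hl).elim

/-- If two coordinates are equal and not larger than the third one then the point is in no child
triangle. -/
theorem home_of {l : List (Fin 3)} {p : ℝ × ℝ} (h : In l p) (m : Fin 3)
    (he : ∀ i j, i ≠ m → j ≠ m → bc l p i = bc l p j) (hm : ∀ i, bc l p i ≤ bc l p m) :
    Home l p := by
  refine ⟨h, fun k hk => ?_⟩
  have h0 := hk 0
  have h1 := hk 1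
  have m0 := hm 0
  have m1 := hm 1
  have m2 := hm 2
  fin_cases m
  · have e := he 1 2 (by decide) (by decide)
    fin_cases k <;> simp [bc, stp] at h0 h1 m0 m1 m2 <;> linarith
  · have e := he 0 2 (by decide) (by decide)
    fin_cases k <;> simp [bc, stp] at h0 h1 m0 m1 m2 <;> linarith
  · have e := he 0 1 (by decide) (by decide)
    fin_cases k <;> simp [bc, stp] at h0 h1 m0 m1 m2 <;> linarith

theorem home_vertex (l : List (Fin 3)) : Home l (pos (Sum.inr l)) := by
  apply home_of (m := 0)
  · intro i; rw [bc_vertex]; norm_num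
  · intro i j _ _; rw [bc_vertex, bc_vertex]
  · intro i; rw [bc_vertex, bc_vertex]

/-- The point is an inner point of the segment of `uv`. -/
def OP (u v : W) (q : ℝ × ℝ) : Prop := ∃ t : ℝ, 0 < t ∧ t < 1 ∧ q = mid (pos u) (pos v) t

theorem OP.swap {u v : W} {q : ℝ × ℝ} (h : OP u v q) : OP v u q := by
  obtain ⟨t, h0, h1, rfl⟩ := h
  exact ⟨1 - t, by linarith, by linarith, mid_swap _ _ _⟩

theorem op_edge {l : List (Fin 3)} {m : Fin 3} {q : ℝ × ℝ} (h : OP (Sum.inr l) (cor l m) q) :
    Home l q ∧ ∀ i, i ≠ m → bc l q i < bc l q m := by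
  obtain ⟨t, h0, h1, rfl⟩ := h
  have e : ∀ i, bc l (mid (pos (Sum.inr l)) (pos (cor l m)) t) i =
      (1 - t) / 3 + if i = m then t else 0 := by
    intro i
    rw [bc_mid, bc_vertex, pos_cor, bc_cpos]
    split_ifs <;> ring
  refine ⟨home_of (m := m) ?_ ?_ ?_, ?_⟩
  · intro i
    rw [e]
    split_ifs <;> linarith
  · intro i j hi hj
    rw [e, e, if_neg hi, if_neg hj]
  · intro i
    rw [e, e, if_pos rfl]
    split_ifs <;> linarith
  · intro i hi
    rw [e, e, if_pos rfl, if_neg hi]
    linarith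

theorem op_outer {a b : Fin 3} {q : ℝ × ℝ} (h : OP (Sum.inl a) (Sum.inl b) q) (hab : a ≠ b) :
    0 < bc [] q a ∧ 0 < bc [] q b ∧ ∀ i, i ≠ a → i ≠ b → bc [] q i = 0 := by
  obtain ⟨t, h0, h1, rfl⟩ := h
  have e : ∀ i, bc [] (mid (pos (Sum.inl a)) (pos (Sum.inl b)) t) i =
      (1 - t) * (if i = a then 1 else 0) + t * if i = b then 1 else 0 := by
    intro i
    rw [bc_mid]
    change (1 - t) * bc [] (cpos [] a) i + t * bc [] (cpos [] b) i = _
    rw [bc_cpos, bc_cpos]
  refine ⟨?_, ?_, ?_⟩
  · rw [e, if_pos rfl, if_neg hab]; linarith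
  · rw [e, if_pos rfl, if_neg hab.symm]; linarith
  · intro i hi hj
    rw [e, if_neg hi, if_neg hj]; ring

theorem bc_inl (a i : Fin 3) : bc [] (pos (Sum.inl a)) i = if i = a then 1 else 0 := by
  change bc [] (cpos [] a) i = _
  rw [bc_cpos]

theorem third (a b : Fin 3) : ∃ c : Fin 3, c ≠ a ∧ c ≠ b := by
  revert a b; decide

theorem pos_inj : Function.Injective pos := by
  intro u v h
  rcases u with a | l <;> rcases v with b | l'
  · by_contra hne
    have hab : a ≠ b := fun h => hne (by rw [h])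
    have := bc_inl a a
    rw [h, bc_inl, if_pos rfl, if_neg hab] at this
    norm_num at this
  · exfalso
    obtain ⟨c, hc, _⟩ := third a a
    have := in_nil (home_vertex l').1 c
    rw [← h, bc_inl, if_neg hc] at this
    exact lt_irrefl _ this
  · exfalso
    obtain ⟨c, hc, _⟩ := third b b
    have := in_nil (home_vertex l).1 c
    rw [h, bc_inl, if_neg hc] at this
    exact lt_irrefl _ this
  · have h1 := home_vertex l
    rw [h] at h1
    rw [home_uniq h1 (home_vertex l')]

theorem vertex_edge (w : W) (l : List (Fin 3)) (m : Fin 3)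
    (h : OP (Sum.inr l) (cor l m) (pos w)) : False := by
  obtain ⟨h1, h2⟩ := op_edge h
  rcases w with a | l'
  · obtain ⟨c, hc, _⟩ := third a a
    have := in_nil h1.1 c
    rw [bc_inl, if_neg hc] at this
    exact lt_irrefl _ this
  · have e := home_uniq h1 (home_vertex l')
    subst e
    obtain ⟨c, hc, _⟩ := third m m
    have := h2 c hc
    rw [bc_vertex, bc_vertex] at this
    exact lt_irrefl _ this

theorem vertex_outer (w : W) (a b : Fin 3) (hab : a ≠ b)
    (h : OP (Sum.inl a) (Sum.inl b) (pos w)) : False := by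
  obtain ⟨h1, h2, h3⟩ := op_outer h hab
  rcases w with c | l
  · rw [bc_inl] at h1 h2
    by_cases hc : a = c
    · rw [if_neg (fun h => hab (hc.trans h.symm))] at h2
      exact lt_irrefl _ h2
    · rw [if_neg hc] at h1
      exact lt_irrefl _ h1
  · obtain ⟨c, hc, hc'⟩ := third a b
    have := in_nil (home_vertex l).1 c
    rw [h3 c hc hc'] at this
    exact lt_irrefl _ this

theorem vertex_adj (w : W) {u v : W} (huv : adjW u v) (h : OP u v (pos w)) : False := by
  rcases huv with (⟨i, j, hij, rfl, rfl⟩ | ⟨l, i, rfl, rfl⟩ | ⟨l, i, rfl, rfl⟩)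
  · exact vertex_outer w i j hij h
  · exact vertex_edge w l i h
  · exact vertex_edge w l i h.swap

theorem edge_edge {l l' : List (Fin 3)} {m m' : Fin 3} {q : ℝ × ℝ}
    (h : OP (Sum.inr l) (cor l m) q) (h' : OP (Sum.inr l') (cor l' m') q) : l = l' ∧ m = m' := by
  obtain ⟨h1, h2⟩ := op_edge h
  obtain ⟨h1', h2'⟩ := op_edge h'
  have e := home_uniq h1 h1'
  subst e
  refine ⟨rfl, ?_⟩
  by_contra hne
  exact lt_irrefl _ ((h2 m' (Ne.symm hne)).trans (h2' m hne))

theorem edge_outer {l : List (Fin 3)} {m a b : Fin 3} {q : ℝ × ℝ} (hab : a ≠ b)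
    (h : OP (Sum.inr l) (cor l m) q) (h' : OP (Sum.inl a) (Sum.inl b) q) : False := by
  obtain ⟨h1, _⟩ := op_edge h
  obtain ⟨_, _, h3⟩ := op_outer h' hab
  obtain ⟨c, hc, hc'⟩ := third a b
  have := in_nil h1.1 c
  rw [h3 c hc hc'] at this
  exact lt_irrefl _ this

theorem outer_outer {a b a' b' : Fin 3} {q : ℝ × ℝ} (hab : a ≠ b) (hab' : a' ≠ b')
    (h : OP (Sum.inl a) (Sum.inl b) q) (h' : OP (Sum.inl a') (Sum.inl b') q) :
    (a = a' ∧ b = b') ∨ (a = b' ∧ b = a') := by
  obtain ⟨h1, h2, h3⟩ := op_outer h hab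
  obtain ⟨h1', h2', h3'⟩ := op_outer h' hab'
  have ha : a = a' ∨ a = b' := by
    by_contra hc
    push Not at hc
    rw [h3' a hc.1 hc.2] at h1
    exact lt_irrefl _ h1
  have hb : b = a' ∨ b = b' := by
    by_contra hc
    push Not at hc
    rw [h3' b hc.1 hc.2] at h2
    exact lt_irrefl _ h2
  rcases ha with rfl | rfl <;> rcases hb with rfl | rfl
  · exact absurd rfl hab
  · exact Or.inl ⟨rfl, rfl⟩
  · exact Or.inr ⟨rfl, rfl⟩
  · exact absurd rfl hab

theorem adj_adj {u v x y : W} {q : ℝ × ℝ} (huv : adjW u v) (hxy : adjW x y) (h : OP u v q)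
    (h' : OP x y q) : (u = x ∧ v = y) ∨ (u = y ∧ v = x) := by
  rcases huv with (⟨i, j, hij, rfl, rfl⟩ | ⟨l, i, rfl, rfl⟩ | ⟨l, i, rfl, rfl⟩) <;>
    rcases hxy with (⟨i', j', hij', rfl, rfl⟩ | ⟨l', i', rfl, rfl⟩ | ⟨l', i', rfl, rfl⟩)
  · rcases outer_outer hij hij' h h' with ⟨rfl, rfl⟩ | ⟨rfl, rfl⟩
    · exact Or.inl ⟨rfl, rfl⟩
    · exact Or.inr ⟨rfl, rfl⟩
  · exact (edge_outer hij h' h).elim
  · exact (edge_outer hij h'.swap h).elim
  · exact (edge_outer hij' h h').elim
  · obtain ⟨rfl, rfl⟩ := edge_edge h h'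
    exact Or.inl ⟨rfl, rfl⟩
  · obtain ⟨rfl, rfl⟩ := edge_edge h h'.swap
    exact Or.inr ⟨rfl, rfl⟩
  · exact (edge_outer hij' h.swap h').elim
  · obtain ⟨rfl, rfl⟩ := edge_edge h.swap h'
    exact Or.inr ⟨rfl, rfl⟩
  · obtain ⟨rfl, rfl⟩ := edge_edge h.swap h'.swap
    exact Or.inl ⟨rfl, rfl⟩

theorem seg_cases {u v : W} {q : ℝ × ℝ} (h : q ∈ segment ℝ (pos u) (pos v)) :
    q = pos u ∨ q = pos v ∨ OP u v q := by
  rw [segment_eq_image] at h
  obtain ⟨t, ⟨h0, h1⟩, rfl⟩ := h
  have e : (1 - t) • pos u + t • pos v = mid (pos u) (pos v) t := by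
    unfold mid
    ext <;> simp
  rcases eq_or_lt_of_le h0 with h0 | h0
  · left; rw [← h0]; simp
  rcases eq_or_lt_of_le h1 with h1 | h1
  · right; left; rw [h1]; simp
  right; right
  exact ⟨t, h0, h1, e⟩

/-- All `Net d` have straight-line drawings in the plane. -/
theorem drawing (d : ℕ) : HasStraightLineDrawing (Net d) := by
  refine ⟨fun w => pos w.1, fun u v h => Subtype.ext (pos_inj h), ?_, ?_⟩
  · intro u v w huv hw
    rcases seg_cases hw with h | h | h
    · exact Or.inl (Subtype.ext (pos_inj h))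
    · exact Or.inr (Subtype.ext (pos_inj h))
    · exact (vertex_adj _ huv h).elim
  · intro u v x y huv hxy hne q hq hq'
    rcases seg_cases hq with h | h | h
    · rcases seg_cases hq' with h' | h' | h'
      · exact ⟨u, Or.inl rfl, Or.inl (Subtype.ext (pos_inj (h.symm.trans h'))), h⟩
      · exact ⟨u, Or.inl rfl, Or.inr (Subtype.ext (pos_inj (h.symm.trans h'))), h⟩
      · rw [h] at h'
        exact (vertex_adj _ hxy h').elim
    · rcases seg_cases hq' with h' | h' | h'
      · exact ⟨v, Or.inr rfl, Or.inl (Subtype.ext (pos_inj (h.symm.trans h'))), h⟩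
      · exact ⟨v, Or.inr rfl, Or.inr (Subtype.ext (pos_inj (h.symm.trans h'))), h⟩
      · rw [h] at h'
        exact (vertex_adj _ hxy h').elim
    · rcases seg_cases hq' with h' | h' | h'
      · rw [h'] at h
        exact (vertex_adj _ huv h).elim
      · rw [h'] at h
        exact (vertex_adj _ huv h).elim
      · exfalso
        apply hne
        rcases adj_adj huv hxy h h' with ⟨h1, h2⟩ | ⟨h1, h2⟩
        · rw [Subtype.ext h1, Subtype.ext h2]
        · rw [Subtype.ext h1, Subtype.ext h2, Sym2.eq_swap]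

end Pool.Agent.H45.Apo
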