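import Mathlib

set_option autoImplicit false

/-!
# Gadget trees for correspondence packing of planar 3-trees

A gadget tree describes vertices stacked into a triangle with corners `a, b, c`: the root `v` is
joined to the three corners, with permutations as matchings, and the three subtrees are stacked
into the triangles `abv`, `acv`, `bcv`. `kills t p q r` says that the packing with values
`p, q, r` at the three corners does not extend to the vertices of the tree.
-/

namespace Pool.Agent.H45.Apo

variable {k : ℕ}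

/-- The two permutations differ at every point. -/
def Av (v w : Equiv.Perm (Fin k)) : Prop := ∀ i, v i ≠ w i

theorem av_right (s v w : Equiv.Perm (Fin k)) : Av (v * s) (w * s) ↔ Av v w := by
  constructor
  · intro h i
    have := h (s⁻¹ i)
    simpa using this
  · intro h i
    exact h (s i)

theorem av_left (g v w : Equiv.Perm (Fin k)) : Av (g * v) (g * w) ↔ Av v w := by
  constructor
  · intro h i hi
    exact h i (by simp [hi])
  · intro h i hi
    exact h i (g.injective hi)

/-- Gadget trees. -/
inductive T (k : ℕ) : Type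
  | leaf : T k
  | node (a b c : Equiv.Perm (Fin k)) (t1 t2 t3 : T k) : T k

/-- The packing `p, q, r` of the corners does not extend to the tree. -/
def kills : T k → Equiv.Perm (Fin k) → Equiv.Perm (Fin k) → Equiv.Perm (Fin k) → Prop
  | .leaf, _, _, _ => False
  | .node a b c t1 t2 t3, p, q, r => ∀ v, Av v (a * p) → Av v (b * q) → Av v (c * r) →
      kills t1 p q v ∨ kills t2 p r v ∨ kills t3 q r v

theorem kills_right (t : T k) : ∀ p q r s : Equiv.Perm (Fin k),
    kills t p q r → kills t (p * s) (q * s) (r * s) := by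
  induction t with
  | leaf => intro p q r s h; exact h
  | node a b c t1 t2 t3 h1 h2 h3 =>
    intro p q r s h v ha hb hc
    have e : ∀ w : Equiv.Perm (Fin k), w = (w * s⁻¹) * s := fun w => by simp
    rw [← mul_assoc, e v, av_right] at ha hb hc
    rcases h _ ha hb hc with h | h | h
    · left; rw [e v]; exact h1 _ _ _ _ h
    · right; left; rw [e v]; exact h2 _ _ _ _ h
    · right; right; rw [e v]; exact h3 _ _ _ _ h

/-- Renaming the colours at the three corners. -/
def gauge : T k → Equiv.Perm (Fin k) → Equiv.Perm (Fin k) → Equiv.Perm (Fin k) → T k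
  | .leaf, _, _, _ => .leaf
  | .node a b c t1 t2 t3, g, h, m =>
      .node (a * g⁻¹) (b * h⁻¹) (c * m⁻¹) (gauge t1 g h 1) (gauge t2 g m 1) (gauge t3 h m 1)

theorem kills_gauge (t : T k) : ∀ p q r g h m : Equiv.Perm (Fin k),
    kills t p q r → kills (gauge t g h m) (g * p) (h * q) (m * r) := by
  induction t with
  | leaf => intro p q r g h m hk; exact hk
  | node a b c t1 t2 t3 h1 h2 h3 =>
    intro p q r g h m hk v ha hb hc
    have e : ∀ x y z : Equiv.Perm (Fin k), x * y⁻¹ * (y * z) = x * z := fun x y z => by group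
    rw [e] at ha hb hc
    rcases hk _ ha hb hc with h' | h' | h'
    · left
      have := h1 _ _ _ g h 1 h'
      rwa [one_mul] at this
    · right; left
      have := h2 _ _ _ g m 1 h'
      rwa [one_mul] at this
    · right; right
      have := h3 _ _ _ h m 1 h'
      rwa [one_mul] at this

/-- Exchanging the first two corners. -/
def swap12 : T k → T k
  | .leaf => .leaf
  | .node a b c t1 t2 t3 => .node b a c (swap12 t1) t3 t2

theorem kills_swap12 (t : T k) : ∀ p q r : Equiv.Perm (Fin k),
    kills t p q r → kills (swap12 t) q p r := by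
  induction t with
  | leaf => intro p q r hk; exact hk
  | node a b c t1 t2 t3 h1 h2 h3 =>
    intro p q r hk v ha hb hc
    rcases hk _ hb ha hc with h' | h' | h'
    · left; exact h1 _ _ _ h'
    · right; right; exact h'
    · right; left; exact h'

/-- Exchanging the last two corners. -/
def swap23 : T k → T k
  | .leaf => .leaf
  | .node a b c t1 t2 t3 => .node a c b t2 t1 (swap12 t3)

theorem kills_swap23 (t : T k) : ∀ p q r : Equiv.Perm (Fin k),
    kills t p q r → kills (swap23 t) p r q := by
  cases t with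
  | leaf => intro p q r hk; exact hk
  | node a b c t1 t2 t3 =>
    intro p q r hk v ha hb hc
    rcases hk _ ha hc hb with h' | h' | h'
    · right; left; exact h'
    · left; exact h'
    · right; right; exact kills_swap12 _ _ _ _ h'

/-- There is a gadget which kills all triples `1, 1, r` with `r ∈ K`. -/
def Kf (K : Set (Equiv.Perm (Fin k))) : Prop := ∃ t : T k, ∀ r ∈ K, kills t 1 1 r

theorem Kf.mono {K L : Set (Equiv.Perm (Fin k))} (h : Kf K) (hL : L ⊆ K) : Kf L := by
  obtain ⟨t, ht⟩ := h
  exact ⟨t, fun r hr => ht r (hL hr)⟩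

/-- General form: the values at the first two corners can be prescribed, and the set of killed
values at the third corner can be translated. -/
theorem Kf.gen {K : Set (Equiv.Perm (Fin k))} (h : Kf K) (p q g s : Equiv.Perm (Fin k)) :
    ∃ t : T k, ∀ r ∈ K, kills t p q (g * r * s) := by
  obtain ⟨t, ht⟩ := h
  refine ⟨gauge t (p * s⁻¹) (q * s⁻¹) g, fun r hr => ?_⟩
  have := kills_gauge t (1 * s) (1 * s) (r * s) (p * s⁻¹) (q * s⁻¹) g (kills_right _ _ _ _ _ (ht r hr))
  have e : ∀ x : Equiv.Perm (Fin k), x * s⁻¹ * (1 * s) = x := fun x => by group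
  rw [e, e, ← mul_assoc] at this
  exact this

theorem Kf.trans {K : Set (Equiv.Perm (Fin k))} (h : Kf K) (g s : Equiv.Perm (Fin k)) :
    Kf {r | g⁻¹ * r * s⁻¹ ∈ K} := by
  obtain ⟨t, ht⟩ := h.gen 1 1 g s
  refine ⟨t, fun r hr => ?_⟩
  have := ht _ hr
  have e : g * (g⁻¹ * r * s⁻¹) * s = r := by group
  rwa [e] at this

theorem kf_empty : Kf (∅ : Set (Equiv.Perm (Fin k))) := ⟨.leaf, fun _ h => h.elim⟩

/-- The composition step. -/
theorem Kf.comp {K K1 K2 K3 : Set (Equiv.Perm (Fin k))} (h1 : Kf K1) (h2 : Kf K2) (h3 : Kf K3)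
    (τ ν μ : Equiv.Perm (Fin k))
    (H : ∀ r ∈ K, ∀ v, Av v 1 → Av v τ → Av v r → v ∈ K1 ∨ (v = ν ∧ r ∈ K2) ∨ (v = μ ∧ r ∈ K3)) :
    Kf K := by
  obtain ⟨t1, ht1⟩ := h1
  obtain ⟨t2, ht2⟩ := h2.gen 1 ν 1 1
  obtain ⟨t3, ht3⟩ := h3.gen 1 μ 1 1
  refine ⟨.node 1 τ 1 t1 (swap23 t2) (swap23 t3), fun r hr v ha hb hc => ?_⟩
  simp only [mul_one] at ha hb
  rw [one_mul] at hc
  rcases H r hr v ha hb hc with h | ⟨rfl, h⟩ | ⟨rfl, h⟩
  · left; exact ht1 v h
  · right; left
    have := ht2 r h
    rw [one_mul, mul_one] at this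
    exact kills_swap23 _ _ _ _ this
  · right; right
    have := ht3 r h
    rw [one_mul, mul_one] at this
    exact kills_swap23 _ _ _ _ this

/-- Gluing a gadget into the free triangle at the edge `ab`. -/
def append : T k → T k → T k
  | .leaf, s => s
  | .node a b c t1 t2 t3, s => .node a b c (append t1 s) t2 t3

theorem kills_append_left (s : T k) (t : T k) : ∀ p q r : Equiv.Perm (Fin k),
    kills t p q r → kills (append t s) p q r := by
  induction t with
  | leaf => intro p q r h; exact h.elim
  | node a b c t1 t2 t3 h1 h2 h3 =>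
    intro p q r hk v ha hb hc
    rcases hk _ ha hb hc with h' | h' | h'
    · left; exact h1 _ _ _ h'
    · right; left; exact h'
    · right; right; exact h'

theorem kills_append_right (s : T k) (p q : Equiv.Perm (Fin k)) (hs : ∀ r, kills s p q r)
    (t : T k) : ∀ r, kills (append t s) p q r := by
  induction t with
  | leaf => intro r; exact hs r
  | node a b c t1 t2 t3 h1 h2 h3 =>
    intro r v _ _ _
    left; exact h1 v

/-- If a window of a killable set is complete then, for every pair of values at an edge, there is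
a gadget at this edge which does not extend. -/
theorem edge_kill {K : Set (Equiv.Perm (Fin k))} (h : Kf K) (g1 g2 : Equiv.Perm (Fin k))
    (H : ∀ r, Av r g1 → Av r g2 → r ∈ K) (p q : Equiv.Perm (Fin k)) :
    ∃ t : T k, ∀ w, kills t p q w := by
  obtain ⟨t, ht⟩ := h.gen p q 1 1
  refine ⟨.node (g1 * p⁻¹) (g2 * q⁻¹) 1 t .leaf .leaf, fun w v ha hb _ => ?_⟩
  have e : ∀ x y : Equiv.Perm (Fin k), x * y⁻¹ * y = x := fun x y => by group
  rw [e] at ha hb
  left
  have := ht v (H v ha hb)
  rwa [one_mul, mul_one] at this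

theorem all_kill {K : Set (Equiv.Perm (Fin k))} (h : Kf K) (g1 g2 : Equiv.Perm (Fin k))
    (H : ∀ r, Av r g1 → Av r g2 → r ∈ K) :
    ∃ t : T k, ∀ p q w, kills t p q w := by
  classical
  have key : ∀ S : Finset (Equiv.Perm (Fin k) × Equiv.Perm (Fin k)),
      ∃ t : T k, ∀ x ∈ S, ∀ w, kills t x.1 x.2 w := by
    intro S
    induction S using Finset.induction_on with
    | empty => exact ⟨.leaf, fun x hx => absurd hx (by simp)⟩
    | insert x S hx ih =>
      obtain ⟨t, ht⟩ := ih
      obtain ⟨s, hs⟩ := edge_kill h g1 g2 H x.1 x.2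
      refine ⟨append t s, fun y hy w => ?_⟩
      rw [Finset.mem_insert] at hy
      rcases hy with rfl | hy
      · exact kills_append_right s _ _ hs t w
      · exact kills_append_left s t _ _ _ (ht y hy w)
  obtain ⟨t, ht⟩ := key Finset.univ
  exact ⟨t, fun p q w => ht (p, q) (Finset.mem_univ _) w⟩

/-- The depth of a tree. -/
def depth : T k → ℕ
  | .leaf => 0
  | .node _ _ _ t1 t2 t3 => max (depth t1) (max (depth t2) (depth t3)) + 1

end Pool.Agent.H45.Apo
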