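import Pool.Agent.H45.Apo.Kill

set_option autoImplicit false

/-!
# The planar 3-trees

`Net d` is obtained from a triangle by `d` times putting a new vertex into every bounded triangular
face (and joining it to the three corners). Vertices are the three corners `inl i` of the outer
triangle and addresses `inr l`: `inr l` is the vertex put into the triangle with address `l`,
whose corners are `cor l 0, cor l 1, cor l 2`; the triangles with addresses `k :: l`, `k = 0, 1, 2`,
are the three triangles into which the triangle `l` is divided by its vertex.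
-/

namespace Pool.Agent.H45.Apo

/-- Vertices of the infinite network. -/
abbrev W := Fin 3 ⊕ List (Fin 3)

/-- The corners of the triangle with address `l`. -/
def cor : List (Fin 3) → Fin 3 → W
  | [], i => Sum.inl i
  | 0 :: l, i => if i = 2 then Sum.inr l else if i = 0 then cor l 0 else cor l 1
  | 1 :: l, i => if i = 2 then Sum.inr l else if i = 0 then cor l 0 else cor l 2
  | 2 :: l, i => if i = 2 then Sum.inr l else if i = 0 then cor l 1 else cor l 2

/-- The round in which a vertex is added. -/
def level : W → ℕ
  | Sum.inl _ => 0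
  | Sum.inr l => l.length + 1

theorem cor_two (k : Fin 3) (l : List (Fin 3)) : cor (k :: l) 2 = Sum.inr l := by
  fin_cases k <;> simp [cor]

/-- The corner of the parent triangle which is the corner `i` of the child `k`, `i = 0, 1`. -/
def sel (k i : Fin 3) : Fin 3 :=
  match k with
  | 0 => if i = 0 then 0 else 1
  | 1 => if i = 0 then 0 else 2
  | 2 => if i = 0 then 1 else 2

theorem cor_sel (k i : Fin 3) (l : List (Fin 3)) (hi : i ≠ 2) :
    cor (k :: l) i = cor l (sel k i) := by
  fin_cases k <;> fin_cases i <;> first | exact absurd rfl hi | simp [cor, sel]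

theorem level_cor (l : List (Fin 3)) : ∀ i, level (cor l i) ≤ l.length := by
  induction l with
  | nil => intro i; simp [cor, level]
  | cons k l ih =>
    intro i
    by_cases hi : i = 2
    · subst hi; rw [cor_two]; simp [level]
    · rw [cor_sel _ _ _ hi, List.length_cons]
      exact (ih _).trans (Nat.le_succ _)

theorem sel_ne (k : Fin 3) : sel k 0 ≠ sel k 1 := by
  fin_cases k <;> decide

theorem cor_ne_inr (l : List (Fin 3)) (i : Fin 3) : cor l i ≠ Sum.inr l := by
  intro h
  have := level_cor l i
  rw [h] at this
  simp [level] at this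

theorem cor_ne (l : List (Fin 3)) : ∀ i j, i ≠ j → cor l i ≠ cor l j := by
  induction l with
  | nil => intro i j h; simpa [cor] using h
  | cons k l ih =>
    intro i j hij
    by_cases hi : i = 2
    · subst hi
      rw [cor_two, cor_sel _ _ _ hij.symm]
      exact (cor_ne_inr _ _).symm
    · by_cases hj : j = 2
      · subst hj
        rw [cor_two, cor_sel _ _ _ hi]
        exact cor_ne_inr _ _
      · rw [cor_sel _ _ _ hi, cor_sel _ _ _ hj]
        apply ih
        have hs := sel_ne k
        have h01 : ∀ i : Fin 3, i ≠ 2 → i = 0 ∨ i = 1 := by decide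
        have hi' := h01 i hi
        have hj' := h01 j hj
        rcases hi' with rfl | rfl <;> rcases hj' with rfl | rfl
        · exact absurd rfl hij
        · exact hs
        · exact hs.symm
        · exact absurd rfl hij

/-- Adjacency in the infinite network. -/
def adjW (u v : W) : Prop :=
  (∃ i j : Fin 3, i ≠ j ∧ u = Sum.inl i ∧ v = Sum.inl j) ∨
    (∃ l i, u = Sum.inr l ∧ v = cor l i) ∨ ∃ l i, v = Sum.inr l ∧ u = cor l i

/-- The planar 3-tree after `d` rounds. -/
def Net (d : ℕ) : SimpleGraph {w : W // level w ≤ d} where
  Adj u v := adjW u.1 v.1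
  symm := ⟨by
    rintro u v (⟨i, j, h, h1, h2⟩ | ⟨l, i, h1, h2⟩ | ⟨l, i, h1, h2⟩)
    · exact Or.inl ⟨j, i, h.symm, h2, h1⟩
    · exact Or.inr (Or.inr ⟨l, i, h1, h2⟩)
    · exact Or.inr (Or.inl ⟨l, i, h1, h2⟩)⟩
  loopless := ⟨by
    rintro ⟨u, hu⟩ (⟨i, j, h, h1, h2⟩ | ⟨l, i, h1, h2⟩ | ⟨l, i, h1, h2⟩)
    · exact h (Sum.inl.inj (h1.symm.trans h2))
    · have := level_cor l i
      rw [← h2, h1] at this
      simp [level] at this
    · have := level_cor l i
      rw [← h2, h1] at this
      simp [level] at this⟩

end Pool.Agent.H45.Apo
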