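import Pool.Agent.H45.Apo.Net
import Pool.Graph.R_seed8.TH455.MDefs

set_option autoImplicit false

/-!
# A cover of a planar 3-tree without packing, from a gadget tree
-/

namespace Pool.Agent.H45.Apo

open Pool.Agent.TH455

variable {k : ℕ}

/-- The subtree stacked into the triangle with address `l`. -/
def child : Fin 3 → T k → T k
  | _, .leaf => .leaf
  | 0, .node _ _ _ t1 _ _ => t1
  | 1, .node _ _ _ _ t2 _ => t2
  | 2, .node _ _ _ _ _ t3 => t3

/-- The subtree stacked into the triangle with address `l`. -/
def sub (t : T k) : List (Fin 3) → T k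
  | [] => t
  | i :: l => child i (sub t l)

/-- The matching from the corner `m` of a triangle to its vertex. -/
def root : T k → Fin 3 → Equiv.Perm (Fin k)
  | .leaf, _ => 1
  | .node a _ _ _ _ _, 0 => a
  | .node _ b _ _ _ _, 1 => b
  | .node _ _ c _ _ _, 2 => c

/-- The matchings of the cover of a gadget tree, from the corners to the vertex of a triangle. -/
def rel (t : T k) (u v : W) (i j : Fin k) : Prop :=
  ∃ l m, v = Sum.inr l ∧ u = cor l m ∧ j = root (sub t l) m i

theorem rel_level {t : T k} {u v : W} {i j : Fin k} (h : rel t u v i j) : level u < level v := by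
  obtain ⟨l, m, rfl, rfl, _⟩ := h
  exact Nat.lt_succ_of_le (level_cor l m)

/-- The cover of a gadget tree. -/
def cover (t : T k) (d : ℕ) : MCover (Net d) k where
  M u v i j := rel t u.1 v.1 i j ∨ rel t v.1 u.1 j i
  symm := fun u v i j h => h.symm
  matching := by
    rintro u v _ i j j' (h | h) (h' | h')
    · obtain ⟨l, m, h1, h2, h3⟩ := h
      obtain ⟨l', m', h1', h2', h3'⟩ := h'
      have hl : l = l' := Sum.inr.inj (h1.symm.trans h1')
      subst hl
      have hm : m = m' := by
        by_contra hne
        exact cor_ne l m m' hne (h2.symm.trans h2')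
      subst hm
      rw [h3, h3']
    · exact absurd (rel_level h) (not_lt.mpr (rel_level h').le)
    · exact absurd (rel_level h) (not_lt.mpr (rel_level h').le)
    · obtain ⟨l, m, h1, h2, h3⟩ := h
      obtain ⟨l', m', h1', h2', h3'⟩ := h'
      have hl : l = l' := Sum.inr.inj (h1.symm.trans h1')
      subst hl
      have hm : m = m' := by
        by_contra hne
        exact cor_ne l m m' hne (h2.symm.trans h2')
      subst hm
      exact (root (sub t l) m).injective (h3.symm.trans h3')

theorem not_kills (t : T k) (d : ℕ) (π : W → Equiv.Perm (Fin k))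
    (hπ : ∀ l m, l.length + 1 ≤ d → Av (π (Sum.inr l)) (root (sub t l) m * π (cor l m)))
    (s : T k) : ∀ l, sub t l = s → l.length + depth s ≤ d →
      ¬ kills s (π (cor l 0)) (π (cor l 1)) (π (cor l 2)) := by
  induction s with
  | leaf => intro l _ _ h; exact h
  | node a b c t1 t2 t3 h1 h2 h3 =>
    intro l hl hd hk
    have hd' : l.length + 1 ≤ d := by
      simp only [depth] at hd
      omega
    have ea := hπ l 0 hd'
    have eb := hπ l 1 hd'
    have ec := hπ l 2 hd'
    rw [hl] at ea eb ec
    rcases hk _ ea eb ec with h | h | h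
    · refine h1 (0 :: l) (by simp only [sub, hl, child]) ?_ h
      simp only [depth, List.length_cons] at hd ⊢
      omega
    · refine h2 (1 :: l) (by simp only [sub, hl, child]) ?_ h
      simp only [depth, List.length_cons] at hd ⊢
      omega
    · refine h3 (2 :: l) (by simp only [sub, hl, child]) ?_ h
      simp only [depth, List.length_cons] at hd ⊢
      omega

theorem not_corrPackable (t : T k) (ht : ∀ p q r, kills t p q r) (d : ℕ) (hd : depth t ≤ d) :
    ¬ CorrPackable (Net d) k := by
  classical
  intro H
  obtain ⟨φ, h1, h2⟩ := H (cover t d)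
  have hinj : ∀ v, Function.Injective fun s => φ s v := by
    intro v s s' hs
    by_contra hne
    exact h2 v s s' hne hs
  let π : W → Equiv.Perm (Fin k) := fun w =>
    if hw : level w ≤ d then
      Equiv.ofBijective _ (Finite.injective_iff_bijective.mp (hinj ⟨w, hw⟩)) else 1
  have hπ : ∀ (w : W) (hw : level w ≤ d) (s : Fin k), π w s = φ s ⟨w, hw⟩ := by
    intro w hw s
    simp only [π, dif_pos hw]
    rfl
  refine not_kills t d π ?_ t [] rfl (by simpa using hd) (ht _ _ _)
  intro l m hl s hs
  have hv : level (Sum.inr l : W) ≤ d := hl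
  have hu : level (cor l m) ≤ d := (level_cor l m).trans (Nat.le_of_succ_le hl)
  have hadj : (Net d).Adj ⟨cor l m, hu⟩ ⟨Sum.inr l, hv⟩ := Or.inr (Or.inr ⟨l, m, rfl, rfl⟩)
  apply h1 s _ _ hadj
  refine Or.inl ⟨l, m, rfl, rfl, ?_⟩
  rw [← hπ _ hv, ← hπ _ hu, hs]
  rfl

/-- No packing in large planar 3-trees, from a killable set containing a window. -/
theorem eventually_not {K : Set (Equiv.Perm (Fin k))} (h : Kf K) (g1 g2 : Equiv.Perm (Fin k))
    (H : ∀ r, Av r g1 → Av r g2 → r ∈ K) : ∃ n, ∀ d, n ≤ d → ¬ CorrPackable (Net d) k := by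
  obtain ⟨t, ht⟩ := all_kill h g1 g2 H
  exact ⟨depth t, fun d hd => not_corrPackable t ht d hd⟩

end Pool.Agent.H45.Apo
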