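import Pool.Agent.H45.Apo.NoPack

set_option autoImplicit false

/-!
# At most four colours
-/

namespace Pool.Agent.H45.Apo

open Pool.Agent.TH455

instance {k : ℕ} (v w : Equiv.Perm (Fin k)) : Decidable (Av v w) :=
  inferInstanceAs (Decidable (∀ i, v i ≠ w i))

theorem not_one : ∃ n, ∀ d, n ≤ d → ¬ CorrPackable (Net d) 1 :=
  eventually_not kf_empty 1 1 fun r h _ => (h 0 (Subsingleton.elim _ _)).elim

theorem not_two : ∃ n, ∀ d, n ≤ d → ¬ CorrPackable (Net d) 2 :=
  eventually_not kf_empty 1 (Equiv.swap 0 1) fun r h h' => by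
    exfalso
    revert r
    decide

theorem not_three : ∃ n, ∀ d, n ≤ d → ¬ CorrPackable (Net d) 3 :=
  eventually_not kf_empty 1 (Equiv.swap 0 1) fun r h h' => by
    exfalso
    revert r
    decide

/-- a cyclic permutation of three of the four points -/
def cyc : Equiv.Perm (Fin 4) := Equiv.swap 0 1 * Equiv.swap 1 2

theorem cyc_dead : ∀ r : Equiv.Perm (Fin 4), Av r 1 → Av r cyc →
    ∀ v : Equiv.Perm (Fin 4), Av v 1 → Av v cyc → Av v r → False := by
  decide +kernel

theorem not_four : ∃ n, ∀ d, n ≤ d → ¬ CorrPackable (Net d) 4 := by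
  have hK : Kf {r : Equiv.Perm (Fin 4) | ∀ v, Av v 1 → Av v cyc → Av v r → False} :=
    Kf.comp kf_empty kf_empty kf_empty cyc 1 1 fun r hr v h1 h2 h3 => (hr v h1 h2 h3).elim
  exact eventually_not hK 1 cyc cyc_dead

end Pool.Agent.H45.Apo
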