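import Pool.Agent.H45.Apo.Net
import Pool.Graph.R_seed8.TH455.MDefs

set_option autoImplicit false

/-!
# Six-fold covers of the planar 3-trees have packings
-/

namespace Pool.Agent.H45.Apo

open Pool.Agent.TH455

/-- `m` partial matchings between indices and colours can be avoided if `2 * m ≤ k`. -/
theorem hall_step (k m : ℕ) (hk : 2 * m ≤ k) (B : Fin m → Fin k → Fin k → Prop)
    (h1 : ∀ i t j j', B i t j → B i t j' → j = j')
    (h2 : ∀ i t t' j, B i t j → B i t' j → t = t') :
    ∃ ψ : Fin k → Fin k, Function.Injective ψ ∧ ∀ i t, ¬ B i t (ψ t) := by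
  classical
  let F : Fin k → Finset (Fin k) := fun t => Finset.univ.filter fun j => ∀ i, ¬ B i t j
  have hF : ∀ t, k - m ≤ (F t).card := by
    intro t
    have hc : (Finset.univ.filter fun j : Fin k => ¬ ∀ i, ¬ B i t j).card ≤ m := by
      have hex : ∀ j : Fin k, ∃ i : Option (Fin m), (¬ ∀ i, ¬ B i t j) → ∃ i', i = some i' ∧
          B i' t j := by
        intro j
        by_cases h : ∀ i, ¬ B i t j
        · exact ⟨none, fun h' => absurd h h'⟩
        · push Not at h
          obtain ⟨i, hi⟩ := h
          exact ⟨some i, fun _ => ⟨i, rfl, hi⟩⟩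
      choose f hf using hex
      have hle : (Finset.univ.filter fun j : Fin k => ¬ ∀ i, ¬ B i t j).card ≤
          (Finset.univ.image (some : Fin m → Option (Fin m))).card := by
        apply Finset.card_le_card_of_injOn f
        · intro j hj
          rw [Finset.mem_coe, Finset.mem_filter] at hj
          obtain ⟨i', hi', _⟩ := hf j hj.2
          rw [hi']
          simp
        · intro j hj j' hj' hjj
          rw [Finset.mem_coe, Finset.mem_filter] at hj hj'
          obtain ⟨i, hi, hb⟩ := hf j hj.2
          obtain ⟨i', hi', hb'⟩ := hf j' hj'.2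
          rw [hi, hi'] at hjj
          have := Option.some.inj hjj
          subst this
          exact h1 _ _ _ _ hb hb'
      refine hle.trans ?_
      refine Finset.card_image_le.trans ?_
      simp
    have hs := Finset.card_filter_add_card_filter_not (s := (Finset.univ : Finset (Fin k)))
      (fun j => ∀ i, ¬ B i t j)
    rw [Finset.card_univ, Fintype.card_fin] at hs
    change k - m ≤ (Finset.univ.filter fun j => ∀ i, ¬ B i t j).card
    omega
  have hcol : ∀ (S : Finset (Fin k)), m < S.card → ∀ j, ∃ t ∈ S, j ∈ F t := by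
    intro S hS j
    by_contra hcon
    push Not at hcon
    have hex : ∀ t : Fin k, ∃ i : Option (Fin m), t ∈ S → ∃ i', i = some i' ∧ B i' t j := by
      intro t
      by_cases ht : t ∈ S
      · have := hcon t ht
        simp only [F, Finset.mem_filter, Finset.mem_univ, true_and] at this
        push Not at this
        obtain ⟨i, hi⟩ := this
        exact ⟨some i, fun _ => ⟨i, rfl, hi⟩⟩
      · exact ⟨none, fun h => absurd h ht⟩
    choose f hf using hex
    have hle : S.card ≤ (Finset.univ.image (some : Fin m → Option (Fin m))).card := by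
      apply Finset.card_le_card_of_injOn f
      · intro t ht
        obtain ⟨i', hi', _⟩ := hf t ht
        rw [hi']
        simp
      · intro t ht t' ht' htt
        obtain ⟨i, hi, hb⟩ := hf t ht
        obtain ⟨i', hi', hb'⟩ := hf t' ht'
        rw [hi, hi'] at htt
        have := Option.some.inj htt
        subst this
        exact h2 _ _ _ _ hb hb'
    have hle2 : (Finset.univ.image (some : Fin m → Option (Fin m))).card ≤ m := by
      refine Finset.card_image_le.trans ?_
      simp
    omega
  have hall : ∀ S : Finset (Fin k), S.card ≤ (S.biUnion F).card := by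
    intro S
    by_cases hS : m < S.card
    · have : S.biUnion F = Finset.univ := by
        ext j
        simp only [Finset.mem_biUnion, Finset.mem_univ, iff_true]
        exact hcol S hS j
      rw [this]
      exact Finset.card_le_card (Finset.subset_univ S)
    · rcases S.eq_empty_or_nonempty with rfl | ⟨t, ht⟩
      · simp
      · have := Finset.card_le_card (Finset.subset_biUnion_of_mem F ht)
        have := hF t
        omega
  obtain ⟨ψ, hψ, hm⟩ := (Finset.all_card_le_biUnion_card_iff_exists_injective F).mp hall
  refine ⟨ψ, hψ, fun i t => ?_⟩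
  have := hm t
  simp only [F, Finset.mem_filter, Finset.mem_univ, true_and] at this
  exact this i

/-- A graph whose vertices are ranked such that adjacent vertices have different ranks and every
vertex has at most `m` neighbours of smaller rank has packings for all `k`-fold covers,
`k ≥ 2 * m`. -/
theorem corrPackable_of_rank {V : Type} (G : SimpleGraph V) (k m : ℕ) (hk : 2 * m ≤ k)
    (rk : V → ℕ) (n : ℕ) (hn : ∀ v, rk v < n) (hne : ∀ u v, G.Adj u v → rk u ≠ rk v)
    (hlow : ∀ v, ∃ N : Fin m → V, ∀ u, G.Adj v u → rk u < rk v → ∃ i, u = N i) :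
    CorrPackable G k := by
  classical
  intro C
  have key : ∀ n, ∃ φ : V → Fin k → Fin k, (∀ v, rk v < n → Function.Injective (φ v)) ∧
      ∀ u v, G.Adj u v → rk u < n → rk v < n → ∀ t, ¬ C.M u v (φ u t) (φ v t) := by
    intro n
    induction n with
    | zero =>
      exact ⟨fun _ => id, fun v hv => absurd hv (Nat.not_lt_zero _),
        fun u v _ hu => absurd hu (Nat.not_lt_zero _)⟩
    | succ n ih =>
      obtain ⟨φ, hφ1, hφ2⟩ := ih
      have hstep : ∀ v, ∃ ψ : Fin k → Fin k, rk v = n → Function.Injective ψ ∧
          ∀ u, G.Adj v u → rk u < n → ∀ t, ¬ C.M u v (φ u t) (ψ t) := by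
        intro v
        by_cases hv : rk v = n
        · obtain ⟨N, hN⟩ := hlow v
          obtain ⟨ψ, h1, h2⟩ := hall_step k m hk
            (fun i t j => G.Adj (N i) v ∧ rk (N i) < n ∧ C.M (N i) v (φ (N i) t) j)
            (fun i t j j' h h' => C.matching _ _ h.1 _ _ _ h.2.2 h'.2.2)
            (fun i t t' j h h' => hφ1 _ h.2.1
              (C.matching _ _ h.1.symm _ _ _ (C.symm _ _ _ _ h.2.2) (C.symm _ _ _ _ h'.2.2)))
          refine ⟨ψ, fun _ => ⟨h1, fun u hu hrk t hM => ?_⟩⟩
          obtain ⟨i, rfl⟩ := hN u hu (by rw [hv]; exact hrk)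
          exact h2 i t ⟨hu.symm, hrk, hM⟩
        · exact ⟨id, fun h => absurd h hv⟩
      choose ψ hψ using hstep
      refine ⟨fun v => if rk v = n then ψ v else φ v, ?_, ?_⟩
      · intro v hv
        by_cases h : rk v = n
        · simp only [if_pos h]; exact (hψ v h).1
        · simp only [if_neg h]; exact hφ1 v (by omega)
      · intro u v huv hu hv t
        by_cases h : rk u = n
        · have h' : rk v ≠ n := fun h' => hne u v huv (h.trans h'.symm)
          simp only [if_pos h, if_neg h']
          intro hM
          exact (hψ u h).2 v huv (by omega) t (C.symm _ _ _ _ hM)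
        · by_cases h' : rk v = n
          · simp only [if_neg h, if_pos h']
            exact (hψ v h').2 u huv.symm (by omega) t
          · simp only [if_neg h, if_neg h']
            exact hφ2 u v huv (by omega) (by omega) t
  obtain ⟨φ, h1, h2⟩ := key n
  exact ⟨fun t v => φ v t, fun t u v huv => h2 u v huv (hn u) (hn v) t,
    fun v s t hst h => hst (h1 v (hn v) h)⟩

/-- The rank of a vertex of `Net d`. -/
def rkW : W → ℕ
  | Sum.inl i => i.1
  | Sum.inr l => 3 + l.length

theorem rk_cor (l : List (Fin 3)) (i : Fin 3) : rkW (cor l i) < 3 + l.length := by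
  have h := level_cor l i
  cases hc : cor l i with
  | inl j => simp only [rkW]; omega
  | inr l' =>
    rw [hc] at h
    simp only [rkW, level] at h ⊢
    omega

theorem corrPackable_six (d : ℕ) : CorrPackable (Net d) 6 := by
  apply corrPackable_of_rank (Net d) 6 3 (by norm_num) (fun v => rkW v.1) (d + 4)
  · rintro ⟨v, hv⟩
    cases v with
    | inl i => simp only [rkW]; omega
    | inr l => simp only [rkW, level] at hv ⊢; omega
  · rintro ⟨u, hu⟩ ⟨v, hv⟩ (⟨i, j, hij, h1, h2⟩ | ⟨l, i, h1, h2⟩ | ⟨l, i, h1, h2⟩)
    · simp only at h1 h2 ⊢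
      subst h1 h2
      exact fun h => hij (Fin.ext h)
    · simp only at h1 h2 ⊢
      subst h1 h2
      exact (rk_cor l i).ne'
    · simp only at h1 h2 ⊢
      subst h1 h2
      exact (rk_cor l i).ne
  · rintro ⟨v, hv⟩
    cases v with
    | inl i =>
      refine ⟨fun j => ⟨Sum.inl j, Nat.zero_le _⟩, ?_⟩
      rintro ⟨u, hu⟩ h hlt
      cases u with
      | inl j => exact ⟨j, rfl⟩
      | inr l => simp only [rkW] at hlt; omega
    | inr l =>
      refine ⟨fun j => ⟨cor l j, (level_cor l j).trans (Nat.le_of_succ_le hv)⟩, ?_⟩
      rintro ⟨u, hu⟩ (⟨i, j, hij, h1, h2⟩ | ⟨l', i, h1, h2⟩ | ⟨l', i, h1, h2⟩) hlt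
      · simp at h1
      · simp only at h1 h2
        have := Sum.inr.inj h1
        subst this
        exact ⟨i, Subtype.ext h2⟩
      · simp only at h1 h2
        subst h1
        have := rk_cor l' i
        rw [← h2] at this
        simp only [rkW] at this hlt
        omega

end Pool.Agent.H45.Apo
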